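import Pool.Agent.H9.SF.FDefs

/-! FL: ranks and ordinals of the extension -/

set_option autoImplicit false

open SF Ordinal
open scoped ZFSet

namespace SF.H12

theorem tm_rank : Tm ZFm (fun _ v => (v 0).rank.toZFSet) := by
  refine tm_recu (ext := fun _ v => v 0)
    (Φ := fun _ u => (⋃₀ (imS (u 1) fun y => insert (app (u 0) y) (app (u 0) y)) : ZFSet))
    ZFSet.rank (Tm.var 0) ?_ ?_ ?_
  · exact Tm.iUn (g := fun _ u => insert (app (u 1) (u 0)) (app (u 1) (u 0))) (Tm.var 1)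
      (Tm.ins (Tm.app (Tm.var 1) (Tm.var 0)) (Tm.app (Tm.var 1) (Tm.var 0)))
  · intro M k v hv y hy
    exact ZFSet.rank_lt_of_mem hy
  · intro M k v hv
    ext z
    rw [Ordinal.mem_toZFSet_iff, ZFSet.mem_sUnion]
    simp only [mem_imS, cons_zero, cons_succ]
    constructor
    · rintro ⟨a, ha, rfl⟩
      obtain ⟨y, hy, hay⟩ := ZFSet.lt_rank_iff.1 ha
      refine ⟨_, ⟨y, hy, rfl⟩, ?_⟩
      rw [app_resS hy, ZFSet.mem_insert_iff]
      rcases eq_or_lt_of_le hay with h | h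
      · exact Or.inl (by rw [h])
      · exact Or.inr (Ordinal.mem_toZFSet_iff.2 ⟨a, h, rfl⟩)
    · rintro ⟨_, ⟨y, hy, rfl⟩, h⟩
      rw [app_resS hy, ZFSet.mem_insert_iff] at h
      rcases h with rfl | h
      · exact ⟨_, ZFSet.rank_lt_of_mem hy, rfl⟩
      · obtain ⟨a, ha, rfl⟩ := Ordinal.mem_toZFSet_iff.1 h
        exact ⟨a, ha.trans (ZFSet.rank_lt_of_mem hy), rfl⟩

theorem rank_val_le (G x : V) : (val G x).rank ≤ x.rank := by
  induction hx : x.rank using WellFoundedLT.induction generalizing x with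
  | _ a ih =>
    rw [ZFSet.rank_le_iff]
    intro y hy
    obtain ⟨z, p, hp, hz, rfl⟩ := mem_val.1 hy
    have h1 := rank_lt_of_pair_mem_left hz
    rw [← hx]
    exact (ih z.rank (hx ▸ h1) z rfl).trans_lt h1

theorem fl : T_FL := by
  refine ⟨tm_rank, rank_val_le, ?_⟩
  rintro M G α k ⟨x, hx, he⟩
  have h1 : α ≤ x.rank := by
    have h2 := rank_val_le G x
    rwa [← he, Ordinal.rank_toZFSet] at h2
  have h3 : M x.rank.toZFSet := tm_rank.1 M k (fun _ => x) (fun _ => hx)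
  rcases eq_or_lt_of_le h1 with h | h
  · rw [h]; exact h3
  · exact k.trans _ h3 _ (Ordinal.mem_toZFSet_iff.2 ⟨α, h, rfl⟩)

end SF.H12
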