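import Pool.Agent.H9.SF.FDefs

/-! FK: power sets in the generic extension -/

set_option autoImplicit false

open SF
open scoped ZFSet

namespace SF.H12

theorem tm_fk (hFB : T_FB) : Tm ZFm (fun _ v =>
    (v 0).sep fun q => fM (v 1) (fst q) (v 2) (snd q)) := by
  have h1 : Dfb ZFm (fun _ v => fM (v 2) (fst (v 0)) (v 3) (snd (v 0))) :=
    hFB.2.comp (args [fun _ v => v 2, fun _ v => fst (v 0), fun _ v => v 3, fun _ v => snd (v 0)])
      (tm_args _ (by
        intro a ha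
        simp only [List.mem_cons, List.not_mem_nil, or_false] at ha
        rcases ha with rfl | rfl | rfl | rfl
        · exact Tm.var 2
        · exact Tm.fst (Tm.var 0)
        · exact Tm.var 3
        · exact Tm.snd (Tm.var 0)))
  exact Tm.sep (R := fun _ v => fM (v 2) (fst (v 0)) (v 3) (snd (v 0))) h1 (Tm.var 0)

theorem fk (hFB : T_FB) (hFF : T_FF) (hFJ : T_FJ) : T_FK := by
  intro M c r G hM hc hr hpo hG
  have k : ZFm M := hM.toZFCm.toZFm
  refine { toZFCm := hFJ M c r G hM.toZFCm hc hr hpo hG, pow := ?_ }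
  rintro x ⟨x0, hx0, rfl⟩
  have hD : M (ZFSet.prod (dm x0) c) :=
    (Tm.prod (Tm.dm (Tm.var 0)) (Tm.var 1)).1 M k (cons x0 fun _ => c) (In.cons (fun _ => hc) hx0)
  obtain ⟨P, hP, hP2⟩ := hM.pow _ hD
  have hPc : M (ZFSet.prod P c) :=
    (Tm.prod (Tm.var 0) (Tm.var 1)).1 M k (cons P fun _ => c) (In.cons (fun _ => hc) hP)
  refine ⟨val G (ZFSet.prod P c), ⟨_, hPc, rfl⟩, ?_⟩
  rintro z ⟨z0, hz0, rfl⟩ hsub
  -- the name of `z`
  have hs : M ((ZFSet.prod (dm x0) c).sep fun q => fM r (fst q) z0 (snd q)) :=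
    (tm_fk hFB).1 M k (cons (ZFSet.prod (dm x0) c) (cons r fun _ => z0))
      (In.cons (In.cons (fun _ => hz0) hr) hD)
  set s := (ZFSet.prod (dm x0) c).sep fun q => fM r (fst q) z0 (snd q) with hsdef
  have hGc := hG.1.sub
  have hsP : s ∈ P := hP2 s hs (fun q hq => (ZFSet.mem_sep.1 hq).1)
  have htr : ∀ w, M w → (val G w ∈ val G z0 ↔ ∃ p ∈ G, fM r w z0 p) := fun w hw =>
    (hFF M c r G k hc hr hpo hG w z0 hw hz0).2
  have hval : val G z0 = val G s := by
    ext y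
    constructor
    · intro hy
      obtain ⟨w, p0, hp0, hw, rfl⟩ := mem_val.1 (hsub hy)
      have hwM : M w := (k.of_pair_mem hx0 hw).1
      obtain ⟨p, hp, hf⟩ := (htr w hwM).1 hy
      refine val_mem (p := p) ?_ hp
      rw [hsdef, ZFSet.mem_sep]
      refine ⟨ZFSet.pair_mem_prod.2 ⟨mem_dm.2 ⟨p0, hw⟩, hGc hp⟩, ?_⟩
      rw [fst_pair, snd_pair]
      exact hf
    · intro hy
      obtain ⟨w, p, hp, hw, rfl⟩ := mem_val.1 hy
      have hwM : M w := (k.of_pair_mem hs hw).1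
      rw [hsdef, ZFSet.mem_sep, fst_pair, snd_pair] at hw
      exact (htr w hwM).2 ⟨p, hp, hw.2⟩
  rw [hval]
  obtain ⟨p, hp⟩ := hG.1.ne
  exact val_mem (ZFSet.pair_mem_prod.2 ⟨hsP, hGc hp⟩) hp

end SF.H12
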