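import Pool.Agent.H9.SF.FD2

/-! FR: infima of regular open sets and generic filters -/

set_option autoImplicit false

open SF
open scoped ZFSet

namespace SF.H12

theorem tm_fr : Tm ZFm (fun _ v => (v 0).sep fun p => (∀ O ∈ v 2, p ∈ O) ∨
    ∃ O ∈ v 2, ∀ q ∈ v 0, (ZFSet.pair q p ∈ v 1 → ¬ q ∈ O)) := by
  have h1 : Dfb ZFm (fun _ v => ∀ O ∈ v 3, v 0 ∈ O) :=
    (Dfb.ball (R := fun _ v => v 1 ∈ v 0) ktr_zfm (Tm.var 3)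
      (Dfb.mem (Tm.var 1) (Tm.var 0))).congr fun M k v hv => Iff.rfl
  have h2 : Dfb ZFm (fun _ v => ∃ O ∈ v 3, ∀ q ∈ v 1, (ZFSet.pair q (v 0) ∈ v 2 → ¬ q ∈ O)) := by
    refine (Dfb.bex (R := fun _ v => ∀ q ∈ v 2, (ZFSet.pair q (v 1) ∈ v 3 → ¬ q ∈ v 0)) ktr_zfm
      (Tm.var 3) ?_).congr fun M k v hv => Iff.rfl
    exact (Dfb.ball (R := fun _ v => ZFSet.pair (v 0) (v 2) ∈ v 4 → ¬ v 0 ∈ v 1) ktr_zfm
      (Tm.var 2) ((Dfb.pairMem (Tm.var 0) (Tm.var 2) (Tm.var 4)).imp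
        (Dfb.mem (Tm.var 0) (Tm.var 1)).not)).congr fun M k v hv => Iff.rfl
  exact Tm.sep (R := fun _ v => (∀ O ∈ v 3, v 0 ∈ O) ∨
    ∃ O ∈ v 3, ∀ q ∈ v 1, (ZFSet.pair q (v 0) ∈ v 2 → ¬ q ∈ O)) (h1.or h2) (Tm.var 0)

theorem fr : T_FR := by
  intro M c r k hc hr hpo S hS hO
  have hmem : ∀ {p q : V}, ZFSet.pair p q ∈ r → p ∈ c ∧ q ∈ c := by
    intro p q h
    obtain ⟨a, ha, b, hb, e⟩ := hpo.sub _ h
    obtain ⟨rfl, rfl⟩ := ZFSet.pair_inj.1 e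
    exact ⟨ha, hb⟩
  constructor
  · refine ⟨fun p hp => (ZFSet.mem_sep.1 hp).1, ?_, ?_⟩
    · intro p hp q hq
      rw [ZFSet.mem_sep] at hp ⊢
      exact ⟨(hmem hq).1, fun O hOS => (hO O hOS).2.1 p (hp.2 O hOS) q hq⟩
    · intro p hp h
      rw [ZFSet.mem_sep]
      refine ⟨hp, fun O hOS => (hO O hOS).2.2 p hp fun q hq => ?_⟩
      obtain ⟨q', hq', h2⟩ := h q hq
      exact ⟨q', (ZFSet.mem_sep.1 hq').2 O hOS, h2⟩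
  · intro G hG hmeet
    have hD : M (c.sep fun p => (∀ O ∈ S, p ∈ O) ∨
        ∃ O ∈ S, ∀ q ∈ c, (ZFSet.pair q p ∈ r → ¬ q ∈ O)) :=
      tm_fr.1 M k (cons c (cons r fun _ => S)) (In.cons (In.cons (fun _ => hS) hr) hc)
    obtain ⟨p, hp, hpD⟩ := hG.2 _ hD ⟨fun p hp => (ZFSet.mem_sep.1 hp).1, by
      intro p hp
      by_cases h : ∀ O ∈ S, p ∈ O
      · exact ⟨p, ZFSet.mem_sep.2 ⟨hp, Or.inl h⟩, hpo.refl p hp⟩
      · push Not at h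
        obtain ⟨O, hOS, hpO⟩ := h
        have h3 := mt ((hO O hOS).2.2 p hp) hpO
        push Not at h3
        obtain ⟨q, hq, hq2⟩ := h3
        refine ⟨q, ZFSet.mem_sep.2 ⟨(hmem hq).1, Or.inr ⟨O, hOS, ?_⟩⟩, hq⟩
        intro q1 _ hq1 hq1O
        exact hq2 q1 hq1O hq1⟩
    rcases (ZFSet.mem_sep.1 hpD).2 with h | ⟨O, hOS, h⟩
    · exact ⟨p, hp, h⟩
    · exfalso
      obtain ⟨p1, hp1, hp1O⟩ := hmeet O hOS
      obtain ⟨s, hs, hsp, hsp1⟩ := hG.1.dir p hp p1 hp1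
      exact h s (hG.1.sub hs) hsp ((hO O hOS).2.1 p1 hp1O s hsp1)

end SF.H12
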