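import Pool.Agent.H77.SF.KT

/-! # KD: diagonal intersections for sequences -/

open Ordinal Cardinal Order Set
open scoped ZFSet

namespace SF.H12

open SF

theorem kd : T_KD := by
  classical
  intro κ N W hκ hW P hP
  by_contra hcon
  have h1 : ∀ᶠ Y in (W : Filter V), ¬ ∀ t : ℕ → V, (∀ i, t i ∈ Y) → P t Y :=
    Ultrafilter.eventually_not.2 hcon
  let g : V → ℕ → V := fun Y =>
    if h : ∃ t : ℕ → V, (∀ i, t i ∈ Y) ∧ ¬ P t Y then h.choose else fun _ => ∅
  have hg : ∀ᶠ Y in (W : Filter V), (∀ i, g Y i ∈ Y) ∧ ¬ P (g Y) Y := by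
    filter_upwards [h1] with Y hY
    have h : ∃ t : ℕ → V, (∀ i, t i ∈ Y) ∧ ¬ P t Y := by
      by_contra h2
      apply hY
      intro t ht
      by_contra h3
      exact h2 ⟨t, ht, h3⟩
    have h4 : g Y = h.choose := dif_pos h
    rw [h4]
    exact h.choose_spec
  have h2 : ∀ i : ℕ, ∃ t ∈ N, ∀ᶠ Y in (W : Filter V), g Y i = t := fun i =>
    hW.norm (fun Y => g Y i) (hg.mono fun Y hY => hY.1 i)
  choose t htN ht using h2
  have h3 : ∀ᶠ Y in (W : Filter V), ∀ i : ℕ, g Y i = t i :=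
    hW.comp ℕ (fun i Y => g Y i = t i) (by rw [Cardinal.mk_nat]; exact hκ) ht
  obtain ⟨Y, ⟨hY1, hY2⟩, hY3⟩ := ((hg.and h3).and (hP t htN)).exists
  have h5 : g Y = t := funext hY2
  rw [h5] at hY1
  exact hY1.2 hY3

end SF.H12
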