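import Pool.Agent.H9.SF.QDefs

/-! # QD: the forcing axiom with a directed system of conditions -/

open Ordinal Cardinal Order Set
open scoped ZFSet

namespace SF.H12

open SF

theorem qd (hQA : T_QA) (hQC : T_QC) : T_QD := by
  intro A hne hFA mu ρ b0 hpre hgood d hd b hb hbb hb0
  obtain ⟨C, k, hts, hG⟩ := hgood
  obtain ⟨ktop, -, kproj, -⟩ := (hQA.2 A mu ρ hne hpre).2 C k hts
  obtain ⟨s, m, p, hs1, hs2, hs3, hs4⟩ := hQC A mu ρ hne hpre C k hts d hd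
  set x0 : El A.B := mkEl A.B b0 with hx0
  have hx0v : x0 = ⟨b0, hb0⟩ := by
    rw [hx0]; unfold mkEl; exact dif_pos hb0
  have hbx : b ≤ x0 := by
    rw [El.le_iff, hx0v]; exact hbb
  have kmono : ∀ x y : El A.B, x ≤ y → k x ≤ k y := fun x y h => by
    have h1 : k.f (x ⊓ y) = k.f x ⊓ k.f y := k.inf x y
    rw [inf_eq_left.2 h] at h1
    exact inf_eq_left.1 h1.symm
  have hk2 : ∀ x, (k.res (k x0)) x = k x ⊓ k x0 := fun _ => rfl
  have hk2top : (k.res (k x0)) ⊤ = k x0 := by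
    rw [hk2, ktop, top_inf_eq]
  let D : Ordinal.{0} → Set (El C.B) := fun i => {c | ∃ ξ ∈ mu, s i ξ ⊓ k x0 = c}
  have hD : ∀ i < o1, sSup (D i) = (k.res (k x0)) ⊤ := by
    intro i hi
    rw [hk2top]
    apply le_antisymm
    · apply sSup_le
      rintro c ⟨ξ, hξ, rfl⟩
      exact inf_le_right
    · have h1 : k x0 = (⨆ ξ : El mu, s i ξ.val) ⊓ k x0 := by rw [hs1 i hi, top_inf_eq]
      rw [h1, iSup_inf_eq]
      apply iSup_le
      intro ξ
      apply le_sSup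
      exact ⟨ξ.val, ξ.mem, rfl⟩
  have hbproj : b ≤ (k.res (k x0)).proj ((k.res (k x0)) ⊤) := by
    apply le_sInf
    intro y hy
    have h1 : k x0 ≤ k y := by
      have h2 : (k.res (k x0)) ⊤ ≤ (k.res (k x0)) y := hy
      rw [hk2top, hk2] at h2
      exact h2.trans inf_le_left
    have h3 : k.proj (k x0) ≤ y := sInf_le h1
    rw [kproj] at h3
    exact hbx.trans h3
  obtain ⟨b2, hb2, hb2n, F, hF1, hF2, hF3, hF4, hF5, hF6⟩ :=
    hFA C (k.res (k x0)) hG D hD b hbproj hb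
  have Fmono : ∀ c e : El C.B, c ≤ e → F c ≤ F e := fun c e h => by
    have h1 := hF1 c e
    rw [inf_eq_left.2 h] at h1
    exact inf_eq_left.1 h1.symm
  refine ⟨b2, hb2, hb2n, fun n ξ => F (s n ξ ⊓ k x0), m, p, ?_, ?_, ?_, ?_⟩
  · intro n hn
    apply le_antisymm
    · exact iSup_le fun ξ => hF4 _
    · rw [← hF6 n hn]
      refine iSup₂_le ?_
      rintro c ⟨ξ, hξ, rfl⟩
      exact le_iSup (fun ξ : El mu => F (s n ξ.val ⊓ k x0)) ⟨ξ, hξ⟩
  · intro n hn ξ hξ η hη hne'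
    show F (s n ξ ⊓ k x0) ⊓ F (s n η ⊓ k x0) = ⊥
    rw [← hF1]
    have h1 : s n ξ ⊓ k x0 ⊓ (s n η ⊓ k x0) = ⊥ := by
      apply le_bot_iff.1
      rw [← hs2 n hn ξ hξ η hη hne']
      exact le_inf (inf_le_left.trans inf_le_left) (inf_le_right.trans inf_le_left)
    rw [h1, hF2]
  · intro i hi
    refine ⟨(hs3 i hi).1, fun ξ hξ => ?_⟩
    have h1 : s (m i) ξ ⊓ k x0 ≤ (k.res (k x0)) (d i ξ) := by
      rw [hk2]
      exact inf_le_inf_right _ ((hs3 i hi).2 ξ hξ)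
    refine (Fmono _ _ h1).trans ?_
    rw [hF5]
    exact inf_le_left
  · intro n hn l hl
    refine ⟨(hs4 n hn l hl).1, fun ζ hζ ξ hξ => ?_⟩
    obtain ⟨h1, h2⟩ := (hs4 n hn l hl).2 ζ hζ ξ hξ
    constructor
    · show F (s (p n l) ζ ⊓ k x0) ⊓ F (s n ξ ⊓ k x0) ≤ rv A ρ ζ ξ
      rw [← hF1]
      have h3 : s (p n l) ζ ⊓ k x0 ⊓ (s n ξ ⊓ k x0) ≤ (k.res (k x0)) (rv A ρ ζ ξ) := by
        rw [hk2]
        exact le_inf ((inf_le_inf inf_le_left inf_le_left).trans h1)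
          (inf_le_left.trans inf_le_right)
      refine (Fmono _ _ h3).trans ?_
      rw [hF5]
      exact inf_le_left
    · show F (s (p n l) ζ ⊓ k x0) ⊓ F (s l ξ ⊓ k x0) ≤ rv A ρ ζ ξ
      rw [← hF1]
      have h3 : s (p n l) ζ ⊓ k x0 ⊓ (s l ξ ⊓ k x0) ≤ (k.res (k x0)) (rv A ρ ζ ξ) := by
        rw [hk2]
        exact le_inf ((inf_le_inf inf_le_left inf_le_left).trans h2)
          (inf_le_left.trans inf_le_right)
      refine (Fmono _ _ h3).trans ?_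
      rw [hF5]
      exact inf_le_left

end SF.H12
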