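import Pool.Agent.H9.SF.WDefs

/-! WA: definable relations and elementary embeddings of classes -/

set_option autoImplicit false

open SF
open scoped ZFSet

namespace SF.H12

theorem wa : T_WA := by
  intro K M N j hj kM kN
  have h1 : ∀ R, Dfb K R → ∀ v, In M v → (R M v ↔ R N fun i => j (v i)) := by
    rintro R ⟨φ, hφ⟩ v hv
    rw [← hφ M kM v hv, ← hφ N kN (fun i => j (v i)) (fun i => hj.maps _ (hv i))]
    exact hj.el φ v hv
  refine ⟨h1, fun f hf v hv => ?_⟩
  exact (h1 _ hf.2 (cons (f M v) v) (hv.cons (hf.1 M kM v hv))).1 rfl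

end SF.H12
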